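import Pool.Agent.H73.LPC.Stmts

/-!
# Board LPC, row FIG: from the closed Hartogs figure to an open one
-/

set_option autoImplicit false

open Set Filter Topology MeasureTheory Metric

namespace Pool.LPC

open Pool.PHS

/-- the closed figure -/
def fig_K (δ : ℝ) : Set (ℂ × ℂ) :=
  {p | ‖p.1‖ ≤ 1 + δ ∧ ‖p.2‖ ≤ 1 + δ ∧ (‖p.2‖ ≤ δ ∨ 1 - δ ≤ ‖p.1‖)}

theorem fig_closed (δ : ℝ) : IsClosed (fig_K δ) := by
  have h1 : IsClosed {p : ℂ × ℂ | ‖p.1‖ ≤ 1 + δ} := isClosed_le (by fun_prop) (by fun_prop)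
  have h2 : IsClosed {p : ℂ × ℂ | ‖p.2‖ ≤ 1 + δ} := isClosed_le (by fun_prop) (by fun_prop)
  have h3 : IsClosed {p : ℂ × ℂ | ‖p.2‖ ≤ δ} := isClosed_le (by fun_prop) (by fun_prop)
  have h4 : IsClosed {p : ℂ × ℂ | 1 - δ ≤ ‖p.1‖} := isClosed_le (by fun_prop) (by fun_prop)
  exact h1.inter (h2.inter (h3.union h4))

theorem fig_compact (δ : ℝ) : IsCompact (fig_K δ) := by
  have h : IsCompact (closedBall (0 : ℂ) (1 + δ) ×ˢ closedBall (0 : ℂ) (1 + δ)) :=
    (isCompact_closedBall _ _).prod (isCompact_closedBall _ _)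
  refine h.of_isClosed_subset (fig_closed δ) fun p hp => ?_
  exact ⟨mem_closedBall_zero_iff.2 hp.1, mem_closedBall_zero_iff.2 hp.2.1⟩

theorem fig_mono {δ δ' : ℝ} (h : δ ≤ δ') : fig_K δ ⊆ fig_K δ' := by
  rintro p ⟨h1, h2, h3⟩
  refine ⟨by linarith, by linarith, ?_⟩
  rcases h3 with h3 | h3
  · exact Or.inl (by linarith)
  · exact Or.inr (by linarith)

theorem FIG_thm : FIGStmt := by
  rintro n D φ hD ⟨δ₀, hδ₀, hφ⟩ h1 h2
  have hBD : IsOpen (BD δ₀) := by
    have a1 : IsOpen {p : ℂ × ℂ | ‖p.1‖ < 1 + δ₀} := isOpen_lt (by fun_prop) (by fun_prop)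
    have a2 : IsOpen {p : ℂ × ℂ | ‖p.2‖ < 1 + δ₀} := isOpen_lt (by fun_prop) (by fun_prop)
    exact a1.inter a2
  have hV : IsOpen (BD δ₀ ∩ φ ⁻¹' D) := hφ.continuousOn.isOpen_inter_preimage hBD hD
  have key : ∃ m : ℕ, fig_K (1 / ((m : ℝ) + 1)) ⊆ BD δ₀ ∩ φ ⁻¹' D := by
    refine exists_subset_nhds_of_isCompact' (V := fun m : ℕ => fig_K (1 / ((m : ℝ) + 1))) ?_
      (fun m => fig_compact _) (fun m => fig_closed _) ?_
    · intro a b
      refine ⟨max a b, fig_mono ?_, fig_mono ?_⟩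
      · apply one_div_le_one_div_of_le (by positivity)
        have : ((a : ℕ) : ℝ) ≤ ((max a b : ℕ) : ℝ) := by exact_mod_cast le_max_left a b
        linarith
      · apply one_div_le_one_div_of_le (by positivity)
        have : ((b : ℕ) : ℝ) ≤ ((max a b : ℕ) : ℝ) := by exact_mod_cast le_max_right a b
        linarith
    · intro x hx
      have hx' : ∀ m : ℕ, x ∈ fig_K (1 / ((m : ℝ) + 1)) := fun m => mem_iInter.1 hx m
      have b1 : ‖x.1‖ ≤ 1 := by
        by_contra hc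
        push Not at hc
        obtain ⟨m, hm⟩ := exists_nat_one_div_lt (show 0 < ‖x.1‖ - 1 by linarith)
        have := (hx' m).1
        linarith
      have b2 : ‖x.2‖ ≤ 1 := by
        by_contra hc
        push Not at hc
        obtain ⟨m, hm⟩ := exists_nat_one_div_lt (show 0 < ‖x.2‖ - 1 by linarith)
        have := (hx' m).2.1
        linarith
      have b3 : x.2 = 0 ∨ 1 ≤ ‖x.1‖ := by
        by_contra hc
        push Not at hc
        obtain ⟨hc1, hc2⟩ := hc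
        obtain ⟨m, hm⟩ := exists_nat_one_div_lt (show 0 < min ‖x.2‖ (1 - ‖x.1‖) from
          lt_min (norm_pos_iff.2 hc1) (by linarith))
        have hm1 := lt_of_lt_of_le hm (min_le_left _ _)
        have hm2 := lt_of_lt_of_le hm (min_le_right _ _)
        rcases (hx' m).2.2 with h3 | h3
        · linarith
        · linarith
      apply hV.mem_nhds
      refine ⟨⟨by linarith, by linarith⟩, ?_⟩
      rcases b3 with h3 | h3
      · have h4 := h1 x.1 b1
        rw [← h3] at h4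
        exact h4
      · exact h2 x.1 x.2 (le_antisymm b1 h3) b2
  obtain ⟨m, hm⟩ := key
  have hm0 : (0 : ℝ) < 1 / ((m : ℝ) + 1) := by positivity
  set δ : ℝ := min (1 / ((m : ℝ) + 1)) (min (1 / 2) δ₀) with hδ
  have e1 : δ ≤ 1 / ((m : ℝ) + 1) := min_le_left _ _
  have e2 : δ ≤ 1 / 2 := (min_le_right _ _).trans (min_le_left _ _)
  have e3 : δ ≤ δ₀ := (min_le_right _ _).trans (min_le_right _ _)
  refine ⟨δ, φ '' fig_K (1 / ((m : ℝ) + 1)), lt_min hm0 (lt_min (by norm_num) hδ₀),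
    by linarith, hφ.mono ?_, ?_, ?_, ?_⟩
  · rintro p ⟨h3, h4⟩
    exact ⟨by linarith, by linarith⟩
  · exact (fig_compact _).image_of_continuousOn (hφ.continuousOn.mono fun p hp => (hm hp).1)
  · rintro _ ⟨p, hp, rfl⟩
    exact (hm hp).2
  · rintro p ⟨h3, h4, h5⟩
    refine ⟨p, fig_mono e1 ⟨h3.le, h4.le, ?_⟩, rfl⟩
    rcases h5 with h5 | h5
    · exact Or.inl h5.le
    · exact Or.inr h5.le

end Pool.LPC
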